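import Pool.Agent.Q19.HO.Stm

set_option autoImplicit false

/-! Project HO, lemma SURP. -/

namespace Pool.Agent.Q18.HO.SURP

open Pool.Agent.Q19.HO Matrix

section

variable {K : Type} [Field K] {n : ℕ}

theorem re_inj {a b : Matrix (Fin n) (Fin n) K} (h : re a = re b) : a = b := by
  ext i j
  have h1 : (re a i j) 0 = (re b i j) 0 := by rw [h]
  have h2 : ∀ c : Matrix (Fin n) (Fin n) K, (re c i j) 0 = c i j := fun c => by
    show (c i j • (1 : Oct K)) 0 = c i j
    rw [smul_ap, one0, mul_one]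
  rwa [h2, h2] at h1

theorem re_coord (c : Matrix (Fin n) (Fin n) K) (i j : Fin n) : (re c i j) 0 = c i j := by
  show (c i j • (1 : Oct K)) 0 = c i j
  rw [smul_ap, one0, mul_one]

theorem re_add (a b : Matrix (Fin n) (Fin n) K) : re (a + b) = re a + re b := by
  ext i j : 2
  show (a i j + b i j) • (1 : Oct K) = a i j • (1 : Oct K) + b i j • (1 : Oct K)
  rw [add_smul]

theorem re_smul (r : K) (a : Matrix (Fin n) (Fin n) K) : re (r • a) = r • re a := by
  ext i j : 2
  show (r * a i j) • (1 : Oct K) = r • (a i j • (1 : Oct K))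
  rw [mul_smul]

theorem re_mul (a b : Matrix (Fin n) (Fin n) K) : re (a * b) = re a * re b := by
  ext i j : 2
  rw [Matrix.mul_apply]
  show (a * b) i j • (1 : Oct K) = ∑ k, (a i k • (1 : Oct K)) * (b k j • (1 : Oct K))
  rw [Matrix.mul_apply, Finset.sum_smul]
  refine Finset.sum_congr rfl (fun k _ => ?_)
  rw [smul_mul_assoc, mul_smul_comm, mul_one, smul_smul]

theorem re_one : re (1 : Matrix (Fin n) (Fin n) K) = (1 : Mat n K) := by
  ext i j : 2
  show (1 : Matrix (Fin n) (Fin n) K) i j • (1 : Oct K) = (1 : Mat n K) i j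
  rw [Matrix.one_apply, Matrix.one_apply]
  split_ifs
  · rw [one_smul]
  · rw [zero_smul]

theorem re_mem (s : SymK n K) : re (s : Matrix (Fin n) (Fin n) K) ∈ SymP n K := by
  intro i j
  show star ((s : Matrix (Fin n) (Fin n) K) j i • (1 : Oct K)) =
    (s : Matrix (Fin n) (Fin n) K) i j • (1 : Oct K)
  have h : (s : Matrix (Fin n) (Fin n) K) j i = (s : Matrix (Fin n) (Fin n) K) i j := by
    have h1 : (s : Matrix (Fin n) (Fin n) K)ᵀ = s := s.2
    have h2 := congrFun (congrFun h1 i) j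
    rw [Matrix.transpose_apply] at h2
    exact h2
  rw [star_smul', star_one, h]

/-- real symmetric matrices as Hermitian matrices -/
def reL (n : ℕ) (K : Type) [Field K] : SymK n K →ₗ[K] SymP n K where
  toFun s := ⟨re (s : Matrix (Fin n) (Fin n) K), re_mem s⟩
  map_add' _ _ := Subtype.ext (re_add _ _)
  map_smul' _ _ := Subtype.ext (re_smul _ _)

theorem reL_coe (s : SymK n K) : ((reL n K s : SymP n K) : Mat n K) =
    re (s : Matrix (Fin n) (Fin n) K) := rfl

theorem jp_one_left (h2 : (2 : K) ≠ 0) (Y : Mat n K) : jp 1 Y = Y := by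
  unfold jp
  rw [Matrix.one_mul, Matrix.mul_one, ← two_smul K, smul_smul, inv_mul_cancel₀ h2, one_smul]

theorem jp_one_right (h2 : (2 : K) ≠ 0) (Y : Mat n K) : jp Y 1 = Y := by
  unfold jp
  rw [Matrix.one_mul, Matrix.mul_one, ← two_smul K, smul_smul, inv_mul_cancel₀ h2, one_smul]

theorem act_one_re (g : (Matrix (Fin n) (Fin n) K)ˣ) (s : Matrix (Fin n) (Fin n) K) :
    act (1 : Oct K ≃ₗ[K] Oct K) g (re s) = re ((g : Matrix (Fin n) (Fin n) K) * s *
      (↑g⁻¹ : Matrix (Fin n) (Fin n) K)) := by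
  unfold act
  rw [re_mul, re_mul]
  rfl

end

theorem t (h1 : S_REAL) (h2 : S_JORD) (h3 : S_FIXP) (h4 : S_HOM) :
    Pool.Agent.Q19.HO.S_SURP := by
  intro K _ n hK hn f hf
  -- the restriction to the real matrices
  have hr : ∀ s : SymK n K, ∃ s' ∈ SymK n K, (f (reL n K s) : Mat n K) = re s' :=
    fun s => h1 K n hK hn f hf (reL n K s) ⟨s, s.2, rfl⟩
  have hc : ∀ s : SymK n K,
      (Matrix.of fun i j => ((f (reL n K s) : Mat n K) i j) 0 : Matrix (Fin n) (Fin n) K)
        ∈ SymK n K := by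
    intro s
    obtain ⟨s', hs', he⟩ := hr s
    have : (Matrix.of fun i j => ((f (reL n K s) : Mat n K) i j) 0 :
        Matrix (Fin n) (Fin n) K) = s' := by
      ext i j
      rw [Matrix.of_apply, he, re_coord]
    rw [this]
    exact hs'
  let ψ : SymK n K →ₗ[K] SymK n K :=
    { toFun := fun s => ⟨Matrix.of fun i j => ((f (reL n K s) : Mat n K) i j) 0, hc s⟩
      map_add' := fun s u => by
        apply Subtype.ext
        ext i j
        show ((f (reL n K (s + u)) : Mat n K) i j) 0 =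
          ((f (reL n K s) : Mat n K) i j) 0 + ((f (reL n K u) : Mat n K) i j) 0
        rw [map_add, map_add]
        rfl
      map_smul' := fun r s => by
        apply Subtype.ext
        ext i j
        show ((f (reL n K (r • s)) : Mat n K) i j) 0 =
          r * ((f (reL n K s) : Mat n K) i j) 0
        rw [map_smul, map_smul]
        rfl }
  have hψ : ∀ s : SymK n K, (f (reL n K s) : Mat n K) = re (ψ s : Matrix (Fin n) (Fin n) K) := by
    intro s
    obtain ⟨s', hs', he⟩ := hr s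
    have : (ψ s : Matrix (Fin n) (Fin n) K) = s' := by
      ext i j
      show ((f (reL n K s) : Mat n K) i j) 0 = s' i j
      rw [he, re_coord]
    rw [this]
    exact he
  have hinj : Function.Injective ψ := by
    intro s u hsu
    have e1 : f (reL n K s) = f (reL n K u) := by
      apply Subtype.ext
      rw [hψ, hψ, hsu]
    have e2 : reL n K s = reL n K u := f.injective e1
    apply Subtype.ext
    exact re_inj (congrArg Subtype.val e2)
  have hone : ∀ e : SymK n K, (e : Matrix (Fin n) (Fin n) K) = 1 → ψ e = e := by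
    intro e he
    have hu : ((reL n K e : SymP n K) : Mat n K) = 1 := by
      rw [reL_coe, he, re_one]
    have e1 : jp (f (reL n K e) : Mat n K) (f (f.symm (reL n K e))) = f (f.symm (reL n K e)) :=
      hf _ _ _ (by rw [hu]; exact jp_one_left hK _)
    rw [f.apply_symm_apply, hu, jp_one_right hK, hψ] at e1
    apply Subtype.ext
    apply re_inj
    rw [e1, he, re_one]
  have hj : ∀ s t u : SymK n K, (s : Matrix (Fin n) (Fin n) K) * t + t * s = u →
      (ψ s : Matrix (Fin n) (Fin n) K) * (ψ t) + (ψ t) * (ψ s) = ψ u := by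
    intro s t u hstu
    have e1 : jp ((reL n K s : SymP n K) : Mat n K) (reL n K t) =
        (((2 : K)⁻¹ • reL n K u : SymP n K) : Mat n K) := by
      unfold jp
      rw [reL_coe, reL_coe, ← re_mul, ← re_mul, ← re_add, hstu]
      rfl
    have e2 := hf _ _ _ e1
    rw [map_smul] at e2
    have e3 : (((2 : K)⁻¹ • f (reL n K u) : SymP n K) : Mat n K) =
        (2 : K)⁻¹ • (f (reL n K u) : Mat n K) := rfl
    rw [e3, hψ, hψ, hψ] at e2
    unfold jp at e2
    rw [← re_mul, ← re_mul, ← re_add, ← re_smul, ← re_smul] at e2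
    have e4 := re_inj e2
    have e5 := congrArg (fun M => (2 : K) • M) e4
    simp only [smul_smul, mul_inv_cancel₀ hK, one_smul] at e5
    exact e5
  obtain ⟨g, hg, hgs⟩ := h2 K n hK ψ hinj hone hj
  obtain ⟨⟨Φ, hΦ⟩, -⟩ := h4 K n hK
  have hΦ1 : ∀ X : SymP n K,
      (((Φ (1, ⟨g, hg⟩) : AutP n K) : SymP n K ≃ₗ[K] SymP n K) X : Mat n K) =
        act (1 : Oct K ≃ₗ[K] Oct K) g X := fun X => hΦ 1 ⟨g, hg⟩ X
  have hF : ((Φ (1, ⟨g, hg⟩) : AutP n K) : SymP n K ≃ₗ[K] SymP n K)⁻¹ * f ∈ AutP n K :=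
    mul_mem (inv_mem (Φ (1, ⟨g, hg⟩) : AutP n K).2) hf
  have hFix : ∀ X : SymP n K, (∃ s ∈ SymK n K, (X : Mat n K) = re s) →
      (((Φ (1, ⟨g, hg⟩) : AutP n K) : SymP n K ≃ₗ[K] SymP n K)⁻¹ * f) X = X := by
    rintro X ⟨s, hs, hX⟩
    show ((Φ (1, ⟨g, hg⟩) : AutP n K) : SymP n K ≃ₗ[K] SymP n K).symm (f X) = X
    rw [LinearEquiv.symm_apply_eq]
    apply Subtype.ext
    have hX' : X = reL n K ⟨s, hs⟩ := Subtype.ext hX
    rw [hΦ1, hX', hψ, hgs, reL_coe, act_one_re]
  obtain ⟨t, ht, htX⟩ := h3 K n hK (by omega) _ hF hFix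
  refine ⟨t, ht, g, hg, fun X => ?_⟩
  have e1 : f X = ((Φ (1, ⟨g, hg⟩) : AutP n K) : SymP n K ≃ₗ[K] SymP n K)
      ((((Φ (1, ⟨g, hg⟩) : AutP n K) : SymP n K ≃ₗ[K] SymP n K)⁻¹ * f) X) :=
    (LinearEquiv.apply_symm_apply _ _).symm
  rw [e1, hΦ1, htX]
  rfl

end Pool.Agent.Q18.HO.SURP
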